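import Pool.Agent.H69.GN.Stm

set_option autoImplicit false

/-! Part NOR of crew GN. -/

namespace Pool.Agent.H49.GN

open Pool.Agent.H69.GN

theorem t_NOR : S_NOR := by
  intro G _ _ hsq
  have hZ : IsZGroup G := IsZGroup.of_squarefree hsq
  have hK : IsCyclic (commutator G) := IsZGroup.isCyclic_commutator G
  have hKN : commutator G ≤ Subgroup.centralizer (commutator G : Set G) := by
    intro x hx
    rw [Subgroup.mem_centralizer_iff]
    intro y hy
    have h : ∀ a b : commutator G, a * b = b * a := by
      intro a b
      let := hK.commGroup
      exact mul_comm a b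
    have := h ⟨y, hy⟩ ⟨x, hx⟩
    exact congrArg Subtype.val this
  refine ⟨Subgroup.centralizer (commutator G : Set G), inferInstance, ?_,
    Subgroup.centralizer_le hKN⟩
  have hker : ((Abelianization.of (G := G)).comp
      (Subgroup.centralizer (commutator G : Set G)).subtype).ker ≤
      Subgroup.center (Subgroup.centralizer (commutator G : Set G)) := by
    intro x hx
    rw [MonoidHom.mem_ker] at hx
    have hx' : (x : G) ∈ commutator G := by
      have h2 : (x : G) ∈ (Abelianization.of (G := G)).ker := hx
      exact (Abelianization.ker_of G).le h2
    rw [Subgroup.mem_center_iff]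
    intro g
    apply Subtype.ext
    have := (Subgroup.mem_centralizer_iff.1 g.2) _ hx'
    exact this.symm
  let := commGroupOfCyclicCenterQuotient _ hker
  infer_instance

end Pool.Agent.H49.GN
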